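import Pool.Agent.Helper57.QZ.Stmts2
import Pool.Agent.Helper94.ZF.Landau

/-! # Row LD: the logarithmic derivative of zeta away from zeros -/

set_option autoImplicit false

namespace Pool.Agent.Helper57.QZ

open MeasureTheory Set Filter Topology Metric

/-- a lower bound for zeta on the line of real part `3` -/
theorem ld_recip : ∃ K : ℝ, 1 ≤ K ∧ ∀ τ : ℝ, 1 ≤ K * ‖riemannZeta (pt 3 τ)‖ := by
  set m : ℕ → ℂ := fun n => ((ArithmeticFunction.moebius n : ℤ) : ℂ) with hm
  set K : ℝ := ∑' n, ‖LSeries.term m 3 n‖ with hK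
  refine ⟨max K 1, le_max_right _ _, fun τ => ?_⟩
  have hre : (pt 3 τ).re = 3 := by simp [pt]
  have hs : 1 < (pt 3 τ).re := by rw [hre]; norm_num
  have h1 : riemannZeta (pt 3 τ) * LSeries m (pt 3 τ) = 1 := by
    have h2 := ArithmeticFunction.LSeries_zeta_mul_Lseries_moebius hs
    rw [ArithmeticFunction.LSeries_zeta_eq_riemannZeta hs] at h2
    exact h2
  have hsum : Summable (fun n => ‖LSeries.term m (pt 3 τ) n‖) :=
    ((ArithmeticFunction.LSeriesSummable_moebius_iff.mpr hs)).norm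
  have h2 : ‖LSeries m (pt 3 τ)‖ ≤ K := by
    refine (norm_tsum_le_tsum_norm hsum).trans (le_of_eq ?_)
    rw [hK]
    congr 1
    funext n
    rw [LSeries.norm_term_eq, LSeries.norm_term_eq, hre]
    norm_num
  have h3 : ‖riemannZeta (pt 3 τ)‖ * ‖LSeries m (pt 3 τ)‖ = 1 := by
    rw [← norm_mul, h1, norm_one]
  have h4 : ‖LSeries m (pt 3 τ)‖ ≤ max K 1 := h2.trans (le_max_left _ _)
  have h5 := norm_nonneg (riemannZeta (pt 3 τ))
  nlinarith

/-- the logarithmic derivative away from zeros -/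
theorem ld_of (hZG : ST_ZG) : ST_LD := by
  intro ε hε
  obtain ⟨C0, hC0⟩ := hZG
  obtain ⟨K, hK1, hK⟩ := ld_recip
  have hε0 : 0 < ε := hε.1
  have hε2 : ε < 1 / 2 := hε.2
  set C1 := max C0 1 with hC1
  have hC11 : 1 ≤ C1 := le_max_right _ _
  have hZ : ∀ σ ∈ Icc (1 / 2 : ℝ) 6, ∀ t : ℝ, 1 ≤ t → ‖riemannZeta (pt σ t)‖ ≤ C1 * t := by
    intro σ hσ t ht
    refine (hC0 σ hσ t ht).trans ?_
    have h1 : C0 ≤ C1 := le_max_left _ _
    nlinarith
  set L0 := Real.log (4 * C1 * K) with hL0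
  have h4 : 4 ≤ 4 * C1 * K := by nlinarith
  have hL00 : 0 < L0 := Real.log_pos (by linarith)
  refine ⟨320 * (L0 + 1) / ε ^ 2, 10, by positivity, by norm_num, ?_⟩
  intro T hT t ht hG σ hσ τ hτ
  have hT0 : 0 < T := by linarith
  have hlog1 : 1 ≤ Real.log T := by
    rw [Real.le_log_iff_exp_le hT0]
    have := Real.exp_one_lt_d9
    linarith
  have hlog2 : Real.log T ≤ T / 4 + 1 / 2 := by
    have h1 : Real.log (T / 4) ≤ T / 4 - 1 := Real.log_le_sub_one_of_pos (by positivity)
    have h2 : Real.log T = Real.log (T / 4) + Real.log 4 := by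
      rw [← Real.log_mul (by positivity) (by norm_num)]
      congr 1
      ring
    have h3 : Real.log 4 ≤ 3 / 2 := by
      have h5 : Real.log 4 = 2 * Real.log 2 := by
        rw [show (4 : ℝ) = 2 ^ 2 by norm_num, Real.log_pow]
        norm_num
      have := Real.log_two_lt_d9
      linarith
    linarith
  have hτ' := abs_le.mp hτ
  have ht1 := ht.1
  have ht2 := ht.2
  set c : ℂ := pt 3 τ with hc
  set R : ℝ := 5 / 2 - ε / 4 with hR
  have hR0 : 0 < R := by linarith
  set f : ℂ → ℂ := fun z => riemannZeta (c + z) with hf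
  have hpt : ∀ z : ℂ, c + z = pt (3 + z.re) (τ + z.im) := by
    intro z
    apply Complex.ext <;> simp [hc, pt]
  have hball : ∀ z ∈ ball (0 : ℂ) R, |z.re| < R ∧ |z.im| < R := by
    intro z hz
    rw [mem_ball_zero_iff] at hz
    exact ⟨(Complex.abs_re_le_norm z).trans_lt hz, (Complex.abs_im_le_norm z).trans_lt hz⟩
  have him : ∀ z ∈ ball (0 : ℂ) R, 1 ≤ τ + z.im ∧ τ + z.im ≤ 4 * T ∧
      |τ + z.im - t| ≤ Real.log T + 10 := by
    intro z hz
    have h1 := abs_lt.mp (hball z hz).2
    refine ⟨by linarith, by linarith, ?_⟩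
    rw [abs_le]
    constructor <;> linarith
  have hne1 : ∀ z ∈ ball (0 : ℂ) R, c + z ≠ 1 := by
    intro z hz h
    have h1 := congrArg Complex.im h
    rw [hpt z] at h1
    have h2 : (pt (3 + z.re) (τ + z.im)).im = τ + z.im := by simp [pt]
    rw [h2, Complex.one_im] at h1
    linarith [(him z hz).1]
  have hnz : ∀ z ∈ ball (0 : ℂ) R, f z ≠ 0 := by
    intro z hz
    have h1 := abs_lt.mp (hball z hz).1
    obtain ⟨h3, h4, h5⟩ := him z hz
    change riemannZeta (c + z) ≠ 0
    rw [hpt z]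
    by_cases h6 : 1 ≤ 3 + z.re
    · have h7 : (pt (3 + z.re) (τ + z.im)).re = 3 + z.re := by simp [pt]
      exact riemannZeta_ne_zero_of_one_le_re (by rw [h7]; exact h6)
    · exact hG (3 + z.re) ⟨by linarith, by linarith⟩ (τ + z.im) h5
  have hdiff : DifferentiableOn ℂ f (ball 0 R) := by
    intro z hz
    have h1 : DifferentiableAt ℂ riemannZeta (c + z) := differentiableAt_riemannZeta (hne1 z hz)
    have h2 : DifferentiableAt ℂ (fun w : ℂ => c + w) z := differentiableAt_id.const_add c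
    exact (DifferentiableAt.comp z h1 h2).differentiableWithinAt
  obtain ⟨h, hh0, hh, hf2⟩ := Pool.Agent.Helper94.ZF.exists_log_ball hR0 hdiff hnz
  set B := L0 + Real.log T with hB
  have hB0 : 0 < B := by linarith
  have hre : ∀ z ∈ ball (0 : ℂ) R, (h z).re ≤ B := by
    intro z hz
    have h1 := hf2 z hz
    have h0 := abs_lt.mp (hball z hz).1
    have h2 : ‖f z‖ ≤ C1 * (4 * T) := by
      change ‖riemannZeta (c + z)‖ ≤ _
      rw [hpt z]
      refine (hZ (3 + z.re) ⟨by linarith, by linarith⟩ (τ + z.im) (him z hz).1).trans ?_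
      have h3 := (him z hz).2.1
      nlinarith
    have h3 : ‖f 0‖ * Real.exp ((h z).re) ≤ C1 * (4 * T) := by
      rw [h1, norm_mul, Complex.norm_exp] at h2
      exact h2
    have h4 : 1 ≤ K * ‖f 0‖ := by
      have h5 := hK τ
      change 1 ≤ K * ‖riemannZeta (c + 0)‖
      rw [add_zero]
      exact h5
    have h5 : Real.exp ((h z).re) ≤ 4 * C1 * K * T := by
      calc Real.exp (h z).re ≤ K * ‖f 0‖ * Real.exp (h z).re := by
            nlinarith [Real.exp_pos (h z).re]
        _ = K * (‖f 0‖ * Real.exp (h z).re) := by ring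
        _ ≤ K * (C1 * (4 * T)) := by gcongr
        _ = 4 * C1 * K * T := by ring
    rw [hB, hL0, ← Real.log_mul (by positivity) (by positivity)]
    exact (Real.le_log_iff_exp_le (by positivity)).mpr h5
  set z1 : ℂ := ((σ - 3 : ℝ) : ℂ) with hz1
  have hz1n : ‖z1‖ ≤ 5 / 2 - ε / 2 := by
    rw [hz1, Complex.norm_real, Real.norm_eq_abs, abs_le]
    constructor <;> linarith [hσ.1, hσ.2]
  have hcz : c + z1 = pt σ τ := by
    rw [hpt z1]
    simp [hz1]
  have hsub : ∀ z ∈ closedBall z1 (ε / 8), ‖z‖ ≤ 5 / 2 - 3 * ε / 8 := by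
    intro z hz
    rw [mem_closedBall, dist_eq_norm] at hz
    calc ‖z‖ = ‖(z - z1) + z1‖ := by rw [sub_add_cancel]
      _ ≤ ‖z - z1‖ + ‖z1‖ := norm_add_le _ _
      _ ≤ 5 / 2 - 3 * ε / 8 := by linarith
  have hsubR : ∀ z ∈ closedBall z1 (ε / 8), z ∈ ball (0 : ℂ) R := by
    intro z hz
    rw [mem_ball_zero_iff]
    have := hsub z hz
    linarith
  have hbd : ∀ z ∈ closedBall z1 (ε / 8), ‖h z‖ ≤ 40 * B / ε := by
    intro z hz
    have h1 := hsub z hz
    have h3 := Complex.borelCaratheodory_zero hB0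
      (fun w hw => (hh w hw).differentiableAt.differentiableWithinAt)
      (fun w hw => hre w hw) hR0 (hsubR z hz) hh0
    refine h3.trans ?_
    rw [div_le_div_iff₀ (by linarith) hε0]
    have h4 : ε / 8 ≤ R - ‖z‖ := by linarith
    have h5 := norm_nonneg z
    calc 2 * B * ‖z‖ * ε ≤ 2 * B * (5 / 2) * ε := by
          gcongr
          linarith
      _ = 40 * B * (ε / 8) := by ring
      _ ≤ 40 * B * (R - ‖z‖) := by gcongr
  have hz1b : z1 ∈ closedBall z1 (ε / 8) := mem_closedBall_self (by positivity)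
  have hder : ‖deriv h z1‖ ≤ 40 * B / ε / (ε / 8) := by
    apply Complex.norm_deriv_le_of_forall_mem_sphere_norm_le (by positivity)
    · apply DifferentiableOn.diffContOnCl
      intro z hz
      exact (hh z (hsubR z (closure_ball_subset_closedBall hz))).differentiableAt.differentiableWithinAt
    · intro z hz
      exact hbd z (sphere_subset_closedBall hz)
  refine ⟨?_, ?_⟩
  · rw [← hcz]
    exact hnz z1 (hsubR z1 hz1b)
  · have h1 := (hh z1 (hsubR z1 hz1b)).deriv
    have h2 : deriv f z1 = deriv riemannZeta (c + z1) := by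
      rw [hf]
      exact deriv_comp_const_add riemannZeta c z1
    rw [← hcz, ← h2]
    change ‖deriv f z1 / f z1‖ ≤ _
    rw [← h1]
    refine hder.trans ?_
    have h3 : 40 * B / ε / (ε / 8) = 320 * B / ε ^ 2 := by
      field_simp
      ring
    rw [h3, div_mul_eq_mul_div]
    apply div_le_div_of_nonneg_right _ (by positivity)
    rw [hB]
    nlinarith

end Pool.Agent.Helper57.QZ
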